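import Pool.Agent.W973.SRR.Defs

/-!
# Project SRR: from 3SAT to not-all-equal satisfiability
-/

set_option autoImplicit false

namespace Pool.Agent.W108.SRR

open Pool.Agent.W973.SRR Pool.Agent.NPC

theorem bool_back : ∀ a b c s F b1 b2 b3 : Bool,
    ¬ ((a = b1 ↔ b = b2) ∧ (b = b2 ↔ s = true)) →
    ¬ ((s = false ↔ c = b3) ∧ (c = b3 ↔ F = true)) →
    (a ^^ F) = b1 ∨ (b ^^ F) = b2 ∨ (c ^^ F) = b3 := by decide

theorem bool_one : ∀ a b b1 b2 : Bool,
    ¬ ((a = b1 ↔ b = b2) ∧ (b = b2 ↔ (!((a == b1) || (b == b2))) = true)) := by decide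

theorem bool_two : ∀ a b c b1 b2 b3 : Bool, (a = b1 ∨ b = b2 ∨ c = b3) →
    ¬ (((!((a == b1) || (b == b2))) = false ↔ c = b3) ∧ (c = b3 ↔ false = true)) := by decide

theorem mem_nae {φ : CNF} {c : Lit ℕ × Lit ℕ × Lit ℕ} (hc : c ∈ Pool.Agent.W973.SRR.nae φ) :
    ∃ (d : Lit ℕ × Lit ℕ × Lit ℕ) (j : ℕ), φ[j]? = some d ∧
      (c = (rl d.1, rl d.2.1, (true, 3 * j + 1)) ∨
        c = ((false, 3 * j + 1), rl d.2.2, (true, 2))) := by
  simp only [Pool.Agent.W973.SRR.nae, List.mem_flatMap] at hc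
  obtain ⟨⟨d, j⟩, hdj, hc⟩ := hc
  rw [List.mem_zipIdx_iff_getElem?] at hdj
  simp only [List.mem_cons, List.not_mem_nil, or_false] at hdj hc
  exact ⟨d, j, hdj, hc⟩

theorem nae_mem {φ : CNF} {d : Lit ℕ × Lit ℕ × Lit ℕ} {j : ℕ} (h : φ[j]? = some d) :
    (rl d.1, rl d.2.1, ((true, 3 * j + 1) : Lit ℕ)) ∈ Pool.Agent.W973.SRR.nae φ ∧
      (((false, 3 * j + 1) : Lit ℕ), rl d.2.2, ((true, 2) : Lit ℕ)) ∈
        Pool.Agent.W973.SRR.nae φ := by
  constructor
  · simp only [Pool.Agent.W973.SRR.nae, List.mem_flatMap]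
    exact ⟨(d, j), List.mem_zipIdx_iff_getElem?.2 h, by simp⟩
  · simp only [Pool.Agent.W973.SRR.nae, List.mem_flatMap]
    exact ⟨(d, j), List.mem_zipIdx_iff_getElem?.2 h, by simp⟩

theorem nae : S_NAE := by
  intro φ hd
  refine ⟨?_, ?_, ?_⟩
  · intro c hc
    obtain ⟨d, j, hj, rfl | rfl⟩ := mem_nae hc
    · have h := hd d (List.mem_of_getElem? hj)
      simp only [rl]
      refine ⟨?_, ?_, ?_⟩
      · have := h.1
        omega
      · omega
      · omega
    · simp only [rl]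
      refine ⟨?_, ?_, ?_⟩ <;> omega
  · rintro ⟨τ, hτ⟩
    let z : ℕ → Bool := fun i => match φ[i]? with
      | some c => !((τ c.1.2 == c.1.1) || (τ c.2.1.2 == c.2.1.1))
      | none => false
    let τ' : ℕ → Bool := fun v => if v % 3 = 0 then τ (v / 3) else if v % 3 = 1 then z (v / 3)
      else false
    have h0 : ∀ x, τ' (3 * x) = τ x := by
      intro x
      have h1 : 3 * x % 3 = 0 := by omega
      have h2 : 3 * x / 3 = x := by omega
      simp only [τ', h1, h2, if_true]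
    have h1 : ∀ j, τ' (3 * j + 1) = z j := by
      intro j
      have h1 : (3 * j + 1) % 3 = 1 := by omega
      have h2 : (3 * j + 1) / 3 = j := by omega
      simp only [τ', h1, h2, if_true, one_ne_zero, if_false]
    have h2 : τ' 2 = false := by
      simp [τ']
    refine ⟨τ', ?_⟩
    intro c hc
    obtain ⟨d, j, hj, hcc⟩ := mem_nae hc
    have hz : z j = !((τ d.1.2 == d.1.1) || (τ d.2.1.2 == d.2.1.1)) := by
      simp only [z, hj]
    rcases hcc with rfl | rfl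
    · simp only [rl, h0, h1, hz]
      exact bool_one _ _ _ _
    · simp only [rl, h0, h1, h2, hz]
      exact bool_two _ _ _ _ _ _ (hτ d (List.mem_of_getElem? hj))
  · rintro ⟨τ, hτ⟩
    refine ⟨fun x => (τ (3 * x) ^^ τ 2), fun c hc => ?_⟩
    obtain ⟨j, hj⟩ := List.getElem?_of_mem hc
    obtain ⟨m1, m2⟩ := nae_mem hj
    have e1 := hτ _ m1
    have e2 := hτ _ m2
    simp only [rl] at e1 e2
    exact bool_back _ _ _ _ _ _ _ _ e1 e2

end Pool.Agent.W108.SRR
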